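import Mathlib
import Pool.Agent.H32.Bomb

set_option autoImplicit false

namespace Pool.Agent.Results.MP_6d4084_an.Sharp

open Filter Topology Polynomial

/-- `‖q‖ = max_{|z| ≤ 1} |q(z)|` -/
noncomputable def diskNorm (q : ℂ[X]) : ℝ := sSup ((fun z => ‖q.eval z‖) '' Metric.closedBall 0 1)

/-- the Bombieri supremum norm `[p] = max_{0 ≤ j ≤ n} |a_j| / binom(n, j)`, `n = deg p` -/
noncomputable def bombieri (p : ℂ[X]) : ℝ :=
  sSup ((fun j => ‖p.coeff j‖ / (p.natDegree.choose j : ℝ)) '' Set.Iic p.natDegree)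

/-- `S_n` -/
noncomputable def S (n : ℕ) : ℝ :=
  sSup {x : ℝ | ∃ p q : ℂ[X], p.Monic ∧ p.natDegree = n ∧ q.Monic ∧ q ∣ p ∧
    x = diskNorm q / bombieri p}

/-- `K = M(1 + |x + 1|)` -/
noncomputable def K : ℝ :=
  Real.exp (1 / (2 * Real.pi) *
    ∫ t in (0 : ℝ)..(2 * Real.pi), Real.log (1 + ‖1 + Complex.exp (t * Complex.I)‖))

open Pool.Agent.H32.Bomb

theorem K_eq : K = Real.exp LK := by
  rw [K, LK, int_mu, one_div]
  simp only [w, circleMap, zero_add, Complex.ofReal_one, one_mul, add_comm (1 : ℂ)]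

theorem bomb_ge (p : ℂ[X]) {j : ℕ} (hj : j ≤ p.natDegree) :
    ‖p.coeff j‖ ≤ bombieri p * p.natDegree.choose j := by
  have h : (0 : ℝ) < p.natDegree.choose j := by exact_mod_cast Nat.choose_pos hj
  rw [← div_le_iff₀ h]
  exact le_csSup ((Set.finite_Iic _).image _).bddAbove ⟨j, hj, rfl⟩

theorem bomb_one {p : ℂ[X]} (hp : p.Monic) : 1 ≤ bombieri p := by
  have := bomb_ge p le_rfl
  rw [hp.coeff_natDegree] at this
  simpa using this

theorem mem_le {n : ℕ} {x : ℝ} (hx : x ∈ {x : ℝ | ∃ p q : ℂ[X], p.Monic ∧ p.natDegree = n ∧ q.Monic ∧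
    q ∣ p ∧ x = diskNorm q / bombieri p}) : x ≤ K ^ n := by
  obtain ⟨p, q, hp, hn, hq, hd, rfl⟩ := hx
  have h1 := bomb_one hp
  rw [div_le_iff₀ (by linarith), K_eq]
  refine csSup_le ⟨_, 0, by simp, rfl⟩ ?_
  rintro _ ⟨z, hz, rfl⟩
  exact upper hp hn hq hd (fun j hj => hn ▸ bomb_ge p (hn ▸ hj)) (by simpa using hz)

theorem bounds (n : ℕ) : K ^ n / (n + 1) ≤ S n ∧ S n ≤ K ^ n := by
  obtain ⟨p, q, hp, hn, hq, hd, hc, hl⟩ := lower n
  refine ⟨?_, csSup_le ⟨_, p, q, hp, hn, hq, hd, rfl⟩ fun x hx => mem_le hx⟩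
  refine le_trans ?_ (le_csSup ⟨_, fun x hx => mem_le hx⟩ ⟨p, q, hp, hn, hq, hd, rfl⟩)
  have h1 : bombieri p = 1 := by
    refine le_antisymm (csSup_le ⟨_, 0, by simp, rfl⟩ ?_) (bomb_one hp)
    rintro _ ⟨j, hj, rfl⟩
    have h : (0 : ℝ) < p.natDegree.choose j := by exact_mod_cast Nat.choose_pos hj
    show _ / _ ≤ _
    rw [div_le_one h, hn]
    exact hc j
  rw [h1, div_one, K_eq]
  refine hl.trans (le_csSup ?_ ⟨1, by simp, rfl⟩)
  exact ((isCompact_closedBall 0 1).image q.continuous.norm).bddAbove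

/-- `S_n^{1/n} → K`; in particular `limsup S_n^{1/n} = K`. -/
theorem result : Tendsto (fun n : ℕ => S n ^ (1 / n : ℝ)) atTop (𝓝 K) := by
  have hK : 0 < K := Real.exp_pos _
  have h1 : Tendsto (fun n : ℕ => K / ((n : ℝ) + 1) ^ (1 / n : ℝ)) atTop (𝓝 K) := by
    have h2 : Tendsto (fun n : ℕ => ((n : ℝ) + 1) ^ (1 / n : ℝ)) atTop (𝓝 1) := by
      have h3 := (tendsto_rpow_div_mul_add 1 1 (-1) zero_ne_one).comp
        (tendsto_atTop_add_const_right atTop (1 : ℝ) tendsto_natCast_atTop_atTop)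
      refine h3.congr fun n => ?_
      simp
    have h4 := (tendsto_const_nhds (x := K)).div h2 one_ne_zero
    rw [div_one] at h4
    exact h4
  refine tendsto_of_tendsto_of_tendsto_of_le_of_le' h1 tendsto_const_nhds ?_ ?_
  · filter_upwards [eventually_ge_atTop 1] with n hn
    have := Real.rpow_le_rpow (by positivity) (bounds n).1 (show (0 : ℝ) ≤ 1 / n by positivity)
    rwa [Real.div_rpow (by positivity) (by positivity), one_div,
      Real.pow_rpow_inv_natCast hK.le (by omega), ← one_div] at this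
  · filter_upwards [eventually_ge_atTop 1] with n hn
    have h0 : 0 ≤ S n := le_trans (by positivity) (bounds n).1
    have := Real.rpow_le_rpow h0 (bounds n).2 (show (0 : ℝ) ≤ 1 / n by positivity)
    rwa [one_div, Real.pow_rpow_inv_natCast hK.le (by omega), ← one_div] at this

end Pool.Agent.Results.MP_6d4084_an.Sharp
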